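import Pool.Agent.H7.KQ.Stmts

/-!
# Board kq: tools for the rows CSA and CSB
-/

set_option autoImplicit false

open Finset

namespace Pool.KQ

open Pool.Agent.H23.KT Pool.Agent.H46.KW

section tools

variable {V : Type} [DecidableEq V] {G : SimpleGraph V}

lemma h29_mem_un {b : ℕ} {P : Fin b → Finset V} {x : V} : x ∈ un P ↔ ∃ i, x ∈ P i := by
  unfold un
  simp

lemma h29_mem_non {X : Finset V} {u x : V} : x ∈ non G X u ↔ x ∈ X ∧ ¬ G.Adj u x := by
  classical
  unfold non
  rw [mem_filter]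

lemma h29_nb_add_non (X : Finset V) (u : V) : (nb G X u).card + (non G X u).card = X.card := by
  classical
  unfold nb non
  exact card_filter_add_card_filter_not _

lemma h29_eq_idx {b : ℕ} {P : Fin b → Finset V} (hP : Par G P) {x : V} {i j : Fin b}
    (hi : x ∈ P i) (hj : x ∈ P j) : i = j := by
  by_contra hne
  exact disjoint_left.1 (hP.dis i j hne) hi hj

/-- A clique with `p + 2` vertices in the union of the parts misses exactly one part. -/
lemma h29_miss {p : ℕ} {P : Fin (p + 3) → Finset V} (hP : Par G P) {Q : Finset V}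
    (hQ : Q ⊆ un P) (hc : Q.card = p + 2) (hcl : G.IsClique (Q : Set V)) :
    ∃ k, (∀ q ∈ Q, q ∉ P k) ∧ ∀ l, l ≠ k → ∃ q ∈ Q, q ∈ P l := by
  classical
  have hf : ∀ x : V, ∃ i : Fin (p + 3), x ∈ un P → x ∈ P i := by
    intro x
    by_cases hx : x ∈ un P
    · obtain ⟨i, hi⟩ := h29_mem_un.1 hx
      exact ⟨i, fun _ => hi⟩
    · exact ⟨0, fun h => absurd h hx⟩
  choose f hf using hf
  have hinj : Set.InjOn f (Q : Set V) := by
    intro x hx y hy hxy
    by_contra hne
    have h1 := hf x (hQ (mem_coe.1 hx))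
    have h2 := hf y (hQ (mem_coe.1 hy))
    rw [← hxy] at h2
    exact hP.ind _ x h1 y h2 (hcl hx hy hne)
  have hcard : (Q.image f).card = p + 2 := by
    rw [card_image_of_injOn hinj, hc]
  obtain ⟨k, hk⟩ : ∃ k, k ∉ Q.image f := by
    by_contra hcon
    push Not at hcon
    have h1 : (univ : Finset (Fin (p + 3))) ⊆ Q.image f := fun k _ => hcon k
    have h2 := card_le_card h1
    rw [card_univ, Fintype.card_fin, hcard] at h2
    omega
  refine ⟨k, ?_, ?_⟩
  · intro q hq hqk
    apply hk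
    rw [mem_image]
    exact ⟨q, hq, h29_eq_idx hP (hf q (hQ hq)) hqk⟩
  · intro l hl
    by_contra hcon
    push Not at hcon
    have hl' : l ∉ Q.image f := by
      intro h
      obtain ⟨q, hq, rfl⟩ := mem_image.1 h
      exact hcon q hq (hf q (hQ hq))
    have h1 : Q.image f ⊆ (univ.erase k).erase l := by
      intro i hi
      rw [mem_erase, mem_erase]
      refine ⟨?_, ?_, mem_univ _⟩
      · rintro rfl
        exact hl' hi
      · rintro rfl
        exact hk hi
    have h2 := card_le_card h1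
    rw [card_erase_of_mem (mem_erase.2 ⟨hl, mem_univ _⟩), card_erase_of_mem (mem_univ _),
      card_univ, Fintype.card_fin, hcard] at h2
    omega

open Classical in
/-- Elements of `X` adjacent to all of `R` and not in `Z`. -/
lemma h29_sub_card (X Z R : Finset V) (m : ℝ) (hm : ∀ z ∈ R, ((non G X z).card : ℝ) ≤ m) :
    (X.card : ℝ) - Z.card - R.card * m ≤
      ((X.filter (fun x => x ∉ Z ∧ ∀ z ∈ R, G.Adj z x)).card : ℝ) := by
  have h1 : X ⊆ X.filter (fun x => x ∉ Z ∧ ∀ z ∈ R, G.Adj z x) ∪ (Z ∪ R.biUnion (non G X)) := by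
    intro x hx
    rw [mem_union, mem_union, mem_filter, mem_biUnion]
    by_cases hZ : x ∈ Z
    · exact Or.inr (Or.inl hZ)
    · by_cases hR : ∀ z ∈ R, G.Adj z x
      · exact Or.inl ⟨hx, hZ, hR⟩
      · push Not at hR
        obtain ⟨z, hz, hzx⟩ := hR
        exact Or.inr (Or.inr ⟨z, hz, h29_mem_non.2 ⟨hx, hzx⟩⟩)
  have h2 := card_le_card h1
  have h3 := card_union_le (X.filter (fun x => x ∉ Z ∧ ∀ z ∈ R, G.Adj z x))
    (Z ∪ R.biUnion (non G X))
  have h4 := card_union_le Z (R.biUnion (non G X))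
  have h5 : ((R.biUnion (non G X)).card : ℝ) ≤ R.card * m := by
    have h6 : (R.biUnion (non G X)).card ≤ ∑ z ∈ R, (non G X z).card := card_biUnion_le
    calc ((R.biUnion (non G X)).card : ℝ) ≤ ((∑ z ∈ R, (non G X z).card : ℕ) : ℝ) := by
          exact_mod_cast h6
      _ = ∑ z ∈ R, ((non G X z).card : ℝ) := by push_cast; rfl
      _ ≤ R.card * m := by
          rw [← nsmul_eq_mul]
          exact sum_le_card_nsmul _ _ _ hm
  have h6 : (X.card : ℝ) ≤ (X.filter (fun x => x ∉ Z ∧ ∀ z ∈ R, G.Adj z x)).card +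
      (Z.card + (R.biUnion (non G X)).card) := by
    exact_mod_cast h2.trans (h3.trans (Nat.add_le_add_left h4 _))
  linarith

open Classical in
/-- Adjacent pairs in `S × T`, `S` in a part and `T` in another one. -/
lemma h29_pairs {b : ℕ} (P : Fin b → Finset V) {k l : Fin b} (hkl : k ≠ l) {S T : Finset V}
    (hS : S ⊆ P k) (hT : T ⊆ P l) :
    (S.card : ℝ) * T.card - tot G P ≤
      (((S ×ˢ T).filter (fun x : V × V => G.Adj x.1 x.2)).card : ℝ) := by
  have h1 : ((S ×ˢ T).filter (fun x : V × V => G.Adj x.1 x.2)).card +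
      ((S ×ˢ T).filter (fun x : V × V => ¬ G.Adj x.1 x.2)).card = S.card * T.card := by
    rw [card_filter_add_card_filter_not, card_product]
  have h2 : ((S ×ˢ T).filter (fun x : V × V => ¬ G.Adj x.1 x.2)).card = ∑ x ∈ S, (non G T x).card := by
    rw [card_filter, sum_product]
    apply sum_congr rfl
    intro x _
    unfold non
    rw [card_filter]
  have h3 : ∑ x ∈ S, (non G T x).card ≤ ∑ x ∈ P k, (non G (P l) x).card := by
    refine (sum_le_sum (f := fun x => (non G T x).card) (g := fun x => (non G (P l) x).card)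
      fun x _ => card_le_card ?_).trans (sum_le_sum_of_subset hS)
    intro y hy
    rw [h29_mem_non] at hy ⊢
    exact ⟨hT hy.1, hy.2⟩
  have h4 : ∑ x ∈ P k, (non G (P l) x).card ≤ tot G P := by
    unfold tot
    have h5 : ∑ x ∈ P k, (non G (P l) x).card ≤
        ∑ j ∈ univ.erase k, ∑ x ∈ P k, (non G (P j) x).card :=
      single_le_sum (f := fun j => ∑ x ∈ P k, (non G (P j) x).card)
        (fun _ _ => Nat.zero_le _) (mem_erase.2 ⟨hkl.symm, mem_univ l⟩)
    exact h5.trans (single_le_sum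
      (f := fun i => ∑ j ∈ univ.erase i, ∑ x ∈ P i, (non G (P j) x).card)
      (fun _ _ => Nat.zero_le _) (mem_univ k))
  have h5 : (S.card : ℝ) * T.card = (((S ×ˢ T).filter (fun x : V × V => G.Adj x.1 x.2)).card : ℝ) +
      ((∑ x ∈ S, (non G T x).card : ℕ) : ℝ) := by
    rw [← h2]
    exact_mod_cast h1.symm
  have h6 : ((∑ x ∈ S, (non G T x).card : ℕ) : ℝ) ≤ tot G P := by
    exact_mod_cast h3.trans h4
  linarith

end tools

/-- `(p + 3) ^ 2 * e1 p ≤ 1 / 48`. -/
lemma h29_e1 (p : ℕ) : 0 < e1 p ∧ ((p : ℝ) + 3) * e1 p ≤ 1 / 144 := by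
  have hp : (0 : ℝ) ≤ p := Nat.cast_nonneg p
  constructor
  · unfold e1
    positivity
  · unfold e1
    rw [mul_one_div, div_le_div_iff₀ (by positivity) (by norm_num)]
    have : ((p : ℝ) + 3) ^ 3 = (p + 3) * (p + 3) ^ 2 := by ring
    nlinarith [mul_nonneg hp hp, mul_nonneg (mul_nonneg hp hp) hp]

end Pool.KQ
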