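import Pool.Agent.H29.KQ.Bas

/-!
# Row CSA of the board kq: two parts with few neighbours of an exceptional vertex
-/

set_option autoImplicit false

open Finset

namespace Pool.KQ

open Pool.Agent.H23.KT Pool.Agent.H46.KW

/-- Cliques `K` with `nb G K u = R`, for a clique `R` missing exactly the parts `k` and `l`. -/
lemma h29_ext {V : Type} [DecidableEq V] {G : SimpleGraph V} {p : ℕ}
    {P : Fin (p + 3) → Finset V} (hP : Par G P) {k l : Fin (p + 3)} (hkl : k ≠ l) {u : V}
    {R S T : Finset V} (hRX : R ⊆ un P) (hRc : R.card = p + 1) (hRcl : G.IsClique (R : Set V))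
    (hRk : ∀ z ∈ R, z ∉ P k) (hRl : ∀ z ∈ R, z ∉ P l) (hRu : ∀ z ∈ R, G.Adj u z)
    (hS : S ⊆ P k) (hT : T ⊆ P l) (hSR : ∀ x ∈ S, ∀ z ∈ R, G.Adj z x)
    (hTR : ∀ x ∈ T, ∀ z ∈ R, G.Adj z x) (hSu : ∀ x ∈ S, ¬ G.Adj u x)
    (hTu : ∀ x ∈ T, ¬ G.Adj u x) :
    (S.card : ℝ) * T.card - tot G P ≤
      (((clq G (un P) (p + 3)).filter (fun K => nb G K u = R)).card : ℝ) := by
  classical
  refine (h29_pairs P hkl hS hT).trans ?_
  have hxR : ∀ x ∈ P k, x ∉ R := fun x hx hxR => hRk x hxR hx
  have hyR : ∀ y ∈ P l, y ∉ R := fun y hy hyR => hRl y hyR hy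
  have hxy : ∀ x ∈ P k, ∀ y ∈ P l, x ≠ y := by
    rintro x hx y hy rfl
    exact hkl (h29_eq_idx hP hx hy)
  have h : ((S ×ˢ T).filter (fun x : V × V => G.Adj x.1 x.2)).card ≤
      ((clq G (un P) (p + 3)).filter (fun K => nb G K u = R)).card := by
    refine card_le_card_of_injOn (fun x => insert x.1 (insert x.2 R)) ?_ ?_
    · rintro ⟨x, y⟩ hx
      rw [mem_coe, mem_filter, mem_product] at hx
      obtain ⟨⟨hxS, hyT⟩, hadj⟩ := hx
      have hx := hS hxS
      have hy := hT hyT
      rw [mem_coe, mem_filter, mem_clq]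
      refine ⟨⟨?_, ?_, ?_⟩, ?_⟩
      · intro z hz
        rcases mem_insert.1 hz with rfl | hz
        · exact h29_mem_un.2 ⟨k, hx⟩
        rcases mem_insert.1 hz with rfl | hz
        · exact h29_mem_un.2 ⟨l, hy⟩
        · exact hRX hz
      · rw [card_insert_of_notMem, card_insert_of_notMem (hyR y hy), hRc]
        rw [mem_insert, not_or]
        exact ⟨hxy x hx y hy, hxR x hx⟩
      · rw [coe_insert, coe_insert, SimpleGraph.isClique_insert, SimpleGraph.isClique_insert]
        refine ⟨⟨hRcl, fun z hz _ => (hTR y hyT z (mem_coe.1 hz)).symm⟩, ?_⟩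
        intro z hz _
        rcases hz with rfl | hz
        · exact hadj
        · exact (hSR x hxS z (mem_coe.1 hz)).symm
      · ext z
        rw [mem_nb, mem_insert, mem_insert]
        constructor
        · rintro ⟨rfl | rfl | hz, hz2⟩
          · exact absurd hz2 (hSu _ hxS)
          · exact absurd hz2 (hTu _ hyT)
          · exact hz
        · intro hz
          exact ⟨Or.inr (Or.inr hz), hRu z hz⟩
    · rintro ⟨x, y⟩ hx ⟨x', y'⟩ hx' heq
      rw [mem_coe, mem_filter, mem_product] at hx hx'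
      simp only at heq
      have hx1 := hS hx.1.1
      have hy1 := hT hx.1.2
      have hx2 := hS hx'.1.1
      have hy2 := hT hx'.1.2
      simp only at hx1 hy1 hx2 hy2
      have e1 : x ∈ insert x' (insert y' R) := by
        rw [← heq]; exact mem_insert_self _ _
      have e2 : y ∈ insert x' (insert y' R) := by
        rw [← heq]; exact mem_insert_of_mem (mem_insert_self _ _)
      have e1' : x = x' := by
        rcases mem_insert.1 e1 with h | h
        · exact h
        rcases mem_insert.1 h with h | h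
        · exact absurd h (hxy x hx1 y' hy2)
        · exact absurd h (hxR x hx1)
      have e2' : y = y' := by
        rcases mem_insert.1 e2 with h | h
        · exact absurd h.symm (hxy x' hx2 y hy1)
        rcases mem_insert.1 h with h | h
        · exact h
        · exact absurd h (hyR y hy1)
      rw [e1', e2']
  exact_mod_cast h

theorem csa : CSAStmt := by
  intro p C
  refine ⟨⌈3 * |C|⌉₊ + 1, ?_⟩
  intro a ha V _ G e W P U hS he hCB u hu k0 l1 hkl hk0 hl1
  classical
  obtain ⟨hE0, hE⟩ := h29_e1 p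
  have hp0 : (0 : ℝ) ≤ p := Nat.cast_nonneg p
  have haC : 3 * C ≤ (a : ℝ) := by
    have h1 : 3 * |C| ≤ (⌈3 * |C|⌉₊ : ℝ) := Nat.le_ceil _
    have h2 : ((⌈3 * |C|⌉₊ + 1 : ℕ) : ℝ) ≤ a := by exact_mod_cast ha
    push_cast at h2
    have h3 := le_abs_self C
    linarith
  have ha1 : (1 : ℝ) ≤ a := by
    have : (1 : ℕ) ≤ a := le_trans (by omega) ha
    exact_mod_cast this
  have hP := hS.par
  have hXW : ∀ i, P i ⊆ W := fun i x hx => (hS.cov x).2 (Or.inr ⟨i, hx⟩)
  have huW : u ∈ W := (hS.cov u).2 (Or.inl hu)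
  have hunW : un P ⊆ W := by
    intro x hx
    obtain ⟨i, hi⟩ := h29_mem_un.1 hx
    exact hXW i hi
  set N := nb G (un P) u with hN
  set B := nb G (P k0) u ∪ nb G (P l1) u with hB
  set t := (clq G (un P) (p + 3)).filter (fun K => (nb G K u).card = p + 1) with ht
  have hBc : (B.card : ℝ) ≤ a / 16 := by
    have h1 : (B.card : ℝ) ≤ (nb G (P k0) u).card + (nb G (P l1) u).card := by
      exact_mod_cast card_union_le _ _
    linarith
  have hlow : ∀ Q ∈ clq G N (p + 2), (a : ℝ) ^ 2 / 2 ≤
      ((t.bipartiteAbove (fun Q K => ∃ q ∈ B, Q = insert q (nb G K u)) Q).card : ℝ) := by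
    intro Q hQ
    rw [mem_clq] at hQ
    obtain ⟨hQN, hQc, hQcl⟩ := hQ
    have hQX : Q ⊆ un P := hQN.trans (nb_subset G _ _)
    have hQu : ∀ z ∈ Q, G.Adj u z := fun z hz => ((mem_nb G).1 (hQN hz)).2
    obtain ⟨k, hk1, hk2⟩ := h29_miss hP hQX hQc hQcl
    obtain ⟨l, hlk, hl⟩ : ∃ l, l ≠ k ∧ (l = k0 ∨ l = l1) := by
      by_cases h : k0 = k
      · exact ⟨l1, fun h2 => hkl (h.trans h2.symm), Or.inr rfl⟩
      · exact ⟨k0, h, Or.inl rfl⟩
    have hlB : nb G (P l) u ⊆ B := by
      rcases hl with rfl | rfl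
      · exact subset_union_left
      · exact subset_union_right
    have hlc : ((nb G (P l) u).card : ℝ) ≤ a / 32 := by
      rcases hl with rfl | rfl
      · exact hk0
      · exact hl1
    obtain ⟨q, hqQ, hql⟩ := hk2 l hlk
    have hqB : q ∈ B := hlB ((mem_nb G).2 ⟨hql, hQu q hqQ⟩)
    have hRQ : Q.erase q ⊆ Q := erase_subset _ _
    have hRc : (Q.erase q).card = p + 1 := by
      rw [card_erase_of_mem hqQ, hQc]; rfl
    have hRl : ∀ z ∈ Q.erase q, z ∉ P l := by
      intro z hz hzl
      rw [mem_erase] at hz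
      exact hP.ind l z hzl q hql (hQcl (mem_coe.2 hz.2) (mem_coe.2 hqQ) hz.1)
    -- nonneighbours of the vertices of `Q` in `P k`
    have hmk : ∀ z ∈ Q, ((non G (P k) z).card : ℝ) ≤ e1 p * a := by
      intro z hz
      obtain ⟨i, hi⟩ := h29_mem_un.1 (hQX hz)
      exact hS.mis i z hi k (fun h => hk1 z hz (by rw [h]; exact hi))
    have hml : ∀ z ∈ Q.erase q, ((non G (P l) z).card : ℝ) ≤ e1 p * a := by
      intro z hz
      obtain ⟨i, hi⟩ := h29_mem_un.1 (hQX (hRQ hz))
      exact hS.mis i z hi l (fun h => hRl z hz (by rw [h]; exact hi))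
    -- few neighbours of `u` in `P k`
    have hnk : ((nb G (P k) u).card : ℝ) ≤ ((p : ℝ) + 2) * (e1 p * a) := by
      have h1 := h29_sub_card (G := G) (nb G (P k) u) ∅ Q (e1 p * a) (by
        intro z hz
        refine le_trans ?_ (hmk z hz)
        have : non G (nb G (P k) u) z ⊆ non G (P k) z := by
          intro x hx
          rw [h29_mem_non] at hx ⊢
          exact ⟨nb_subset G _ _ hx.1, hx.2⟩
        exact_mod_cast card_le_card this)
      have h2 : (nb G (P k) u).filter (fun x => x ∉ (∅ : Finset V) ∧ ∀ z ∈ Q, G.Adj z x) = ∅ := by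
        rw [filter_eq_empty_iff]
        intro x hx hx2
        rw [mem_nb] at hx
        have hxQ : x ∉ Q := fun h => hk1 x h hx.1
        have huQ : u ∉ Q := fun h => G.loopless.irrefl u (hQu u h)
        have hxu : u ≠ x := hx.2.ne
        have h3 := hCB (insert u (insert x Q)) (by
          intro z hz
          rcases mem_insert.1 hz with rfl | hz
          · exact huW
          rcases mem_insert.1 hz with rfl | hz
          · exact hXW k hx.1
          · exact hunW (hQX hz)) (by
          rw [coe_insert, coe_insert, SimpleGraph.isClique_insert, SimpleGraph.isClique_insert]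
          refine ⟨⟨hQcl, fun z hz _ => (hx2.2 z (mem_coe.1 hz)).symm⟩, ?_⟩
          intro z hz _
          rcases hz with rfl | hz
          · exact hx.2
          · exact hQu z (mem_coe.1 hz))
        rw [card_insert_of_notMem, card_insert_of_notMem hxQ, hQc] at h3
        · omega
        · rw [mem_insert, not_or]
          exact ⟨hxu, huQ⟩
      rw [h2, card_empty, hQc] at h1
      push_cast at h1
      linarith
    -- the sets `S`, `T`
    have hSc := h29_sub_card (G := G) (P k) (nb G (P k) u) (Q.erase q) (e1 p * a)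
      (fun z hz => hmk z (hRQ hz))
    have hTc := h29_sub_card (G := G) (P l) (nb G (P l) u) (Q.erase q) (e1 p * a) hml
    set S := (P k).filter (fun x => x ∉ nb G (P k) u ∧ ∀ z ∈ Q.erase q, G.Adj z x) with hSdef
    set T := (P l).filter (fun x => x ∉ nb G (P l) u ∧ ∀ z ∈ Q.erase q, G.Adj z x) with hTdef
    have hea : e * a ≤ e1 p * a := mul_le_mul_of_nonneg_right he (by linarith)
    have hEa : ((p : ℝ) + 3) * (e1 p * a) ≤ 1 / 144 * a := by
      rw [← mul_assoc]
      exact mul_le_mul_of_nonneg_right hE (by linarith)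
    have hEa0 : 0 ≤ e1 p * a := mul_nonneg hE0.le (by linarith)
    have hlok := hS.lo k
    have hlol := hS.lo l
    rw [hRc] at hSc hTc
    push_cast at hSc hTc
    have hS1 : (0.98 : ℝ) * a ≤ S.card := by nlinarith
    have hT1 : (0.95 : ℝ) * a ≤ T.card := by nlinarith
    have h1 := h29_ext (u := u) hP (Ne.symm hlk) (hRQ.trans hQX) hRc
      (hQcl.subset (by exact_mod_cast hRQ)) (fun z hz => hk1 z (hRQ hz)) hRl
      (fun z hz => hQu z (hRQ hz)) (filter_subset _ _ : S ⊆ P k) (filter_subset _ _ : T ⊆ P l)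
      (fun x hx => ((mem_filter.1 hx).2).2) (fun x hx => ((mem_filter.1 hx).2).2)
      (fun x hx h => ((mem_filter.1 hx).2).1 ((mem_nb G).2 ⟨(mem_filter.1 hx).1, h⟩))
      (fun x hx h => ((mem_filter.1 hx).2).1 ((mem_nb G).2 ⟨(mem_filter.1 hx).1, h⟩))
    have h2 : (a : ℝ) ^ 2 / 2 ≤ (S.card : ℝ) * T.card - tot G P := by
      have h3 := hS.tot
      have h4 : (0.98 : ℝ) * a * (0.95 * a) ≤ S.card * T.card :=
        mul_le_mul hS1 hT1 (by positivity) (Nat.cast_nonneg _)
      nlinarith
    refine h2.trans (h1.trans ?_)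
    have h3 : (clq G (un P) (p + 3)).filter (fun K => nb G K u = Q.erase q) ⊆
        t.bipartiteAbove (fun Q K => ∃ q ∈ B, Q = insert q (nb G K u)) Q := by
      intro K hK
      rw [mem_filter] at hK
      rw [mem_bipartiteAbove, ht, mem_filter]
      refine ⟨⟨hK.1, by rw [hK.2, hRc]⟩, q, hqB, ?_⟩
      rw [hK.2, insert_erase hqQ]
    exact_mod_cast card_le_card h3
  have hup : ∀ K ∈ t, (((clq G N (p + 2)).bipartiteBelow
      (fun Q K => ∃ q ∈ B, Q = insert q (nb G K u)) K).card : ℝ) ≤ a / 16 := by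
    intro K _
    refine le_trans ?_ hBc
    have h3 : (clq G N (p + 2)).bipartiteBelow
        (fun Q K => ∃ q ∈ B, Q = insert q (nb G K u)) K ⊆
        B.image (fun q => insert q (nb G K u)) := by
      intro Q hQ
      rw [mem_bipartiteBelow] at hQ
      obtain ⟨_, q, hq, rfl⟩ := hQ
      exact mem_image_of_mem _ hq
    exact_mod_cast (card_le_card h3).trans card_image_le
  have key := card_nsmul_le_card_nsmul (fun Q K => ∃ q ∈ B, Q = insert q (nb G K u)) hlow hup
  rw [nsmul_eq_mul, nsmul_eq_mul] at key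
  have e1' : kc G N (p + 2) = (clq G N (p + 2)).card := rfl
  have e2' : cc G p (un P) (p + 1) u = t.card := rfl
  rw [e1', e2']
  have hpos : (0 : ℝ) < a / 16 := by positivity
  have h4 : 8 * (a : ℝ) * ((clq G N (p + 2)).card : ℝ) * (a / 16) ≤ (t.card : ℝ) * (a / 16) := by
    linarith [key, show 8 * (a : ℝ) * ((clq G N (p + 2)).card : ℝ) * (a / 16) =
      ((clq G N (p + 2)).card : ℝ) * (a ^ 2 / 2) by ring]
  exact le_of_mul_le_mul_right h4 hpos

end Pool.KQ
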