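import Pool.Agent.H29.KQ.Bas

/-!
# Row CSB of the board kq: at most one part with few neighbours of an exceptional vertex
-/

set_option autoImplicit false

open Finset

namespace Pool.KQ

open Pool.Agent.H23.KT Pool.Agent.H46.KW

section csbtools

variable {V : Type} [DecidableEq V] {G : SimpleGraph V}

omit [DecidableEq V] in
lemma h29_mem_trv {b : ℕ} {P : Fin b → Finset V} {f : Fin b → V} :
    f ∈ trv G P ↔ (∀ i, f i ∈ P i) ∧ ∀ i j, i ≠ j → G.Adj (f i) (f j) := by
  classical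
  unfold trv
  rw [mem_filter, Fintype.mem_piFinset]

/-- Transversals of subsets give cliques with `J.card` neighbours of `u`. -/
lemma h29_cc_ge (hT : TRVStmt) {p : ℕ} {P S : Fin (p + 3) → Finset V} (hP : Par G P) (u : V)
    (J : Finset (Fin (p + 3))) (hS1 : ∀ i ∈ J, S i ⊆ nb G (P i) u)
    (hS2 : ∀ i, i ∉ J → S i ⊆ non G (P i) u) :
    (trv G S).card ≤ cc G p (un P) J.card u := by
  classical
  have hSP : ∀ i, S i ⊆ P i := by
    intro i x hx
    by_cases hi : i ∈ J
    · exact nb_subset G _ _ (hS1 i hi hx)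
    · exact (h29_mem_non.1 (hS2 i hi hx)).1
  have h1 := (hT G P hP).2 (fun K => if (nb G K u).card = J.card then (1 : ℝ) else 0)
  have h2 : (cc G p (un P) J.card u : ℝ) = ∑ K ∈ clq G (un P) (p + 3),
      (if (nb G K u).card = J.card then (1 : ℝ) else 0) := by
    unfold cc
    rw [sum_boole]
  have h3 : ((trv G S).card : ℝ) ≤ ∑ f ∈ trv G P,
      (if (nb G (univ.image f) u).card = J.card then (1 : ℝ) else 0) := by
    rw [sum_boole, Nat.cast_le]
    apply card_le_card
    intro f hf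
    rw [h29_mem_trv] at hf
    obtain ⟨hf', hadj⟩ := hf
    rw [mem_filter, h29_mem_trv]
    refine ⟨⟨fun i => hSP i (hf' i), hadj⟩, ?_⟩
    have hnb : nb G (univ.image f) u = J.image f := by
      ext z
      rw [mem_nb, mem_image, mem_image]
      constructor
      · rintro ⟨⟨i, _, rfl⟩, hz⟩
        refine ⟨i, ?_, rfl⟩
        by_contra hi
        exact (h29_mem_non.1 (hS2 i hi (hf' i))).2 hz
      · rintro ⟨i, hi, rfl⟩
        exact ⟨⟨i, mem_univ _, rfl⟩, ((mem_nb G).1 (hS1 i hi (hf' i))).2⟩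
    rw [hnb, card_image_of_injective]
    intro i j hij
    have h4 := hSP j (hf' j)
    rw [← hij] at h4
    exact h29_eq_idx hP (hSP i (hf' i)) h4
  have h4 : ((trv G S).card : ℝ) ≤ (cc G p (un P) J.card u : ℝ) := by
    rw [h2, h1]
    exact h3
  exact_mod_cast h4

/-- Few broken transversals. -/
lemma h29_brk (hB : BRKStmt) {p a : ℕ} {C : ℝ} {P S : Fin (p + 3) → Finset V}
    (hSP : ∀ i, S i ⊆ P i) (hc : ∀ i, ((P i).card : ℝ) ≤ 2 * a) (ht : (tot G P : ℝ) ≤ C * a) :
    ∏ i, ((S i).card : ℝ) ≤ (trv G S).card + C * 2 ^ (p + 1) * (a : ℝ) ^ (p + 2) := by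
  have h1 := (hB G p S).1 (2 * a) (fun i => by
    have h2 : (P i).card ≤ 2 * a := by exact_mod_cast hc i
    exact (card_le_card (hSP i)).trans h2)
  have h2 := (hB G p P).2.2 S hSP
  have h3 : ((∏ i, (S i).card : ℕ) : ℝ) ≤
      (((trv G S).card + tot G S * (2 * a) ^ (p + 1) : ℕ) : ℝ) := by exact_mod_cast h1
  push_cast at h3
  have h4 : (tot G S : ℝ) ≤ C * a := le_trans (by exact_mod_cast h2) ht
  have h5 : (tot G S : ℝ) * (2 * a) ^ (p + 1) ≤ C * a * (2 * (a : ℝ)) ^ (p + 1) :=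
    mul_le_mul_of_nonneg_right h4 (by positivity)
  have h6 : C * a * (2 * (a : ℝ)) ^ (p + 1) = C * 2 ^ (p + 1) * (a : ℝ) ^ (p + 2) := by
    rw [mul_pow, pow_succ (a : ℝ) (p + 1)]
    ring
  linarith

/-- A clique with `p + 2` vertices is a transversal of all parts but one. -/
lemma h29_kc_le {p : ℕ} {P : Fin (p + 3) → Finset V} (hP : Par G P) (u : V) :
    kc G (nb G (un P) u) (p + 2) ≤ ∑ k, ∏ l ∈ univ.erase k, (nb G (P l) u).card := by
  classical
  have h1 : clq G (nb G (un P) u) (p + 2) ⊆ univ.biUnion (fun k : Fin (p + 3) =>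
      (Fintype.piFinset (fun l => if l = k then {u} else nb G (P l) u)).image
        (fun f => (univ.erase k).image f)) := by
    intro Q hQ
    rw [mem_clq] at hQ
    obtain ⟨hQN, hQc, hQcl⟩ := hQ
    have hQX : Q ⊆ un P := hQN.trans (nb_subset G _ _)
    obtain ⟨k, hk1, hk2⟩ := h29_miss hP hQX hQc hQcl
    rw [mem_biUnion]
    refine ⟨k, mem_univ _, ?_⟩
    rw [mem_image]
    have hk3 : ∀ l, ∃ q, (l = k → q = u) ∧ (l ≠ k → q ∈ Q ∧ q ∈ P l) := by
      intro l
      by_cases hl : l = k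
      · exact ⟨u, fun _ => rfl, fun h => absurd hl h⟩
      · obtain ⟨q, hq1, hq2⟩ := hk2 l hl
        exact ⟨q, fun h => absurd h hl, fun _ => ⟨hq1, hq2⟩⟩
    choose f hf1 hf2 using hk3
    refine ⟨f, ?_, ?_⟩
    · rw [Fintype.mem_piFinset]
      intro l
      by_cases hl : l = k
      · rw [if_pos hl, mem_singleton]
        exact hf1 l hl
      · rw [if_neg hl, mem_nb]
        exact ⟨(hf2 l hl).2, ((mem_nb G).1 (hQN (hf2 l hl).1)).2⟩
    · ext q
      rw [mem_image]
      constructor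
      · rintro ⟨l, hl, rfl⟩
        exact (hf2 l (mem_erase.1 hl).1).1
      · intro hq
        obtain ⟨l, hl⟩ := h29_mem_un.1 (hQX hq)
        have hlk : l ≠ k := by
          rintro rfl
          exact hk1 q hq hl
        refine ⟨l, mem_erase.2 ⟨hlk, mem_univ _⟩, ?_⟩
        by_contra hne
        exact hP.ind l (f l) (hf2 l hlk).2 q hl
          (hQcl (mem_coe.2 (hf2 l hlk).1) (mem_coe.2 hq) hne)
  have h2 : kc G (nb G (un P) u) (p + 2) = (clq G (nb G (un P) u) (p + 2)).card := rfl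
  rw [h2]
  refine (card_le_card h1).trans (card_biUnion_le.trans (sum_le_sum fun k _ => ?_))
  refine card_image_le.trans ?_
  rw [Fintype.card_piFinset, ← mul_prod_erase univ _ (mem_univ k), if_pos rfl, card_singleton,
    one_mul]
  apply le_of_eq
  apply prod_congr rfl
  intro l hl
  rw [if_neg (mem_erase.1 hl).1]

end csbtools

/-- The constants. -/
lemma h29_consts (p : ℕ) (c z : ℝ) (hc : c = (1 / 32) ^ (p + 1) * e1 p / 8)
    (hz : z = c / (64 * (p + 3) * 2 ^ (p + 2))) :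
    0 < c ∧ c ≤ e1 p / 256 ∧ 0 < z ∧ ((p : ℝ) + 3) * z * 2 ^ (p + 2) = c / 64 ∧
      ((p : ℝ) + 3) * z ≤ e1 p / 65536 ∧ z ≤ 1 / 1000 ∧ e1 p ≤ 1 / 432 := by
  obtain ⟨hE0, hE⟩ := h29_e1 p
  have hp : (0 : ℝ) ≤ p := Nat.cast_nonneg p
  have hE1 : e1 p ≤ 1 / 432 := by nlinarith
  have hc0 : 0 < c := by rw [hc]; positivity
  have h32 : ((1 : ℝ) / 32) ^ (p + 1) ≤ 1 / 32 := by
    rw [pow_succ]
    have : ((1 : ℝ) / 32) ^ p ≤ 1 := pow_le_one₀ (by norm_num) (by norm_num)
    linarith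
  have hc1 : c ≤ e1 p / 256 := by
    rw [hc]
    nlinarith
  have hz0 : 0 < z := by rw [hz]; positivity
  have hz1 : ((p : ℝ) + 3) * z * 2 ^ (p + 2) = c / 64 := by
    rw [hz]
    field_simp
  have h4 : (4 : ℝ) ≤ 2 ^ (p + 2) := by
    have : (1 : ℝ) ≤ 2 ^ p := one_le_pow₀ (by norm_num)
    rw [pow_add]
    linarith
  have hpz : 0 ≤ ((p : ℝ) + 3) * z := by positivity
  have hz2 : ((p : ℝ) + 3) * z ≤ e1 p / 65536 := by
    have : ((p : ℝ) + 3) * z * 4 ≤ c / 64 := by
      rw [← hz1]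
      exact mul_le_mul_of_nonneg_left h4 hpz
    linarith
  refine ⟨hc0, hc1, hz0, hz1, hz2, ?_, hE1⟩
  nlinarith

theorem csb (hT : TRVStmt) (hB : BRKStmt) : CSBStmt := by
  intro p
  obtain ⟨c, hc⟩ : ∃ c : ℝ, c = (1 / 32) ^ (p + 1) * e1 p / 8 := ⟨_, rfl⟩
  obtain ⟨z, hz⟩ : ∃ z : ℝ, z = c / (64 * (p + 3) * 2 ^ (p + 2)) := ⟨_, rfl⟩
  obtain ⟨hc0, hc1, hz0, hz1, hz2, hz3, hE1⟩ := h29_consts p c z hc hz
  obtain ⟨hE0, hE⟩ := h29_e1 p
  have hp : (0 : ℝ) ≤ p := Nat.cast_nonneg p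
  refine ⟨z, z, hz0, by linarith, hz0, ?_⟩
  intro r C
  obtain ⟨a₁, ha₁⟩ := exists_nat_gt (C * 2 ^ (p + 1) / (z * (1 / 32) ^ (p + 2)))
  obtain ⟨a₂, ha₂⟩ := exists_nat_gt ((r * 2 ^ (p + 2) + 2 * |C| * 2 ^ (p + 1)) * 8 / c)
  refine ⟨a₁ + a₂ + r + 1, ?_⟩
  intro a ha V _ G e W P U hS he0 he hCB u hu k0 hk0
  classical
  have haR : ((a₁ + a₂ + r + 1 : ℕ) : ℝ) ≤ a := by exact_mod_cast ha
  push_cast at haR
  have hr0 : (0 : ℝ) ≤ r := Nat.cast_nonneg r
  have ha10 : (0 : ℝ) ≤ a₁ := Nat.cast_nonneg _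
  have ha20 : (0 : ℝ) ≤ a₂ := Nat.cast_nonneg _
  have ha1 : (1 : ℝ) ≤ a := by linarith
  have har : (r : ℝ) ≤ a := by linarith
  have hapos : (0 : ℝ) < a := by linarith
  have hC1 : C * 2 ^ (p + 1) < a * (z * (1 / 32) ^ (p + 2)) := by
    have h1 : C * 2 ^ (p + 1) / (z * (1 / 32) ^ (p + 2)) < a := by linarith
    rwa [div_lt_iff₀ (by positivity)] at h1
  have hC2 : (r * 2 ^ (p + 2) + 2 * |C| * 2 ^ (p + 1)) * 8 < a * c := by
    have h1 : (r * 2 ^ (p + 2) + 2 * |C| * 2 ^ (p + 1)) * 8 / c < a := by linarith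
    rwa [div_lt_iff₀ hc0] at h1
  have hC0 : 0 ≤ C := le_trans (Nat.cast_nonneg _) hS.cU
  rw [abs_of_nonneg hC0] at hC2
  have hP := hS.par
  have hXW : ∀ i, P i ⊆ W := fun i x hx => (hS.cov x).2 (Or.inr ⟨i, hx⟩)
  have huW : u ∈ W := (hS.cov u).2 (Or.inl hu)
  have hunW : un P ⊆ W := by
    intro x hx
    obtain ⟨i, hi⟩ := h29_mem_un.1 hx
    exact hXW i hi
  have he1 : e ≤ 1 / 1000 := he.trans hz3
  have hP2 : ∀ i, ((P i).card : ℝ) ≤ 2 * a := by
    intro i
    have h1 := hS.hi i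
    nlinarith
  -- the numbers of neighbours
  obtain ⟨n, hn⟩ : ∃ n : Fin (p + 3) → ℝ, ∀ i, n i = ((nb G (P i) u).card : ℝ) :=
    ⟨_, fun _ => rfl⟩
  have hn0 : ∀ i, 0 ≤ n i := fun i => by rw [hn]; exact Nat.cast_nonneg _
  have hnP : ∀ i, n i + ((non G (P i) u).card : ℝ) = ((P i).card : ℝ) := by
    intro i
    rw [hn]
    exact_mod_cast h29_nb_add_non (G := G) (P i) u
  have hnon0 : ∀ i, (0 : ℝ) ≤ ((non G (P i) u).card : ℝ) := fun i => Nat.cast_nonneg _
  have hnle : ∀ i, n i ≤ (1 + e) * a := fun i => by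
    have h1 := hnP i
    have h2 := hnon0 i
    have h3 := hS.hi i
    linarith
  have hn2 : ∀ i, n i ≤ 2 * a := fun i => by
    have h1 := hnP i
    have h2 := hnon0 i
    have h3 := hP2 i
    linarith
  have hk0' : ∀ l, l ≠ k0 → (a : ℝ) / 32 ≤ n l := fun l hl => by rw [hn]; exact hk0 l hl
  obtain ⟨Pi, hPi⟩ : ∃ Pi : ℝ, Pi = ∏ l ∈ univ.erase k0, n l := ⟨_, rfl⟩
  have hcardk : ∀ k : Fin (p + 3), (univ.erase k).card = p + 2 := by
    intro k
    rw [card_erase_of_mem (mem_univ k), card_univ, Fintype.card_fin]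
    rfl
  have hcardkl : ∀ k l : Fin (p + 3), l ≠ k → ((univ.erase k).erase l).card = p + 1 := by
    intro k l hl
    rw [card_erase_of_mem (mem_erase.2 ⟨hl, mem_univ l⟩), hcardk]
    rfl
  have hlow : ∀ J : Finset (Fin (p + 3)), k0 ∉ J → ((a : ℝ) / 32) ^ J.card ≤ ∏ l ∈ J, n l := by
    intro J hJ
    rw [← prod_const]
    exact prod_le_prod (fun _ _ => by positivity) (fun l hl => hk0' l (fun h => hJ (h ▸ hl)))
  have hupp : ∀ (J : Finset (Fin (p + 3))) (m : ℝ), (∀ i, n i ≤ m) →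
      ∏ l ∈ J, n l ≤ m ^ J.card := by
    intro J m hm
    rw [← prod_const]
    exact prod_le_prod (fun l _ => hn0 l) (fun l _ => hm l)
  -- (A)
  have hA : n k0 ≤ z * a := by
    by_contra hcon
    push Not at hcon
    have h1 := h29_cc_ge hT (S := fun i => nb G (P i) u) hP u univ (fun i _ => Subset.rfl)
      (fun i hi => absurd (mem_univ i) hi)
    have h2 : cc G p (un P) (univ : Finset (Fin (p + 3))).card u = 0 := by
      unfold cc
      rw [card_eq_zero, filter_eq_empty_iff]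
      intro K hK hK2
      rw [mem_clq] at hK
      rw [card_univ, Fintype.card_fin] at hK2
      have h3 : nb G K u = K := eq_of_subset_of_card_le (nb_subset G _ _) (by rw [hK2, hK.2.1])
      have h4 : ∀ x ∈ K, G.Adj u x := fun x hx => ((mem_nb G).1 (h3.symm ▸ hx)).2
      have h5 := hCB (insert u K) (by
        intro x hx
        rcases mem_insert.1 hx with rfl | hx
        · exact huW
        · exact hunW (hK.1 hx)) (by
        rw [coe_insert, SimpleGraph.isClique_insert]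
        exact ⟨hK.2.2, fun x hx _ => h4 x (mem_coe.1 hx)⟩)
      rw [card_insert_of_notMem (fun h => G.loopless.irrefl u (h4 u h)), hK.2.1] at h5
      omega
    have h3 := h29_brk hB (S := fun i => nb G (P i) u) (fun i => nb_subset G _ _) hP2 hS.tot
    have h4 : ((trv G (fun i => nb G (P i) u)).card : ℝ) = 0 := by
      have : (trv G (fun i => nb G (P i) u)).card = 0 := by omega
      exact_mod_cast this
    rw [h4, zero_add] at h3
    have h5 : ∏ i, ((nb G (P i) u).card : ℝ) = n k0 * Pi := by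
      rw [hPi, mul_prod_erase univ n (mem_univ k0)]
      exact prod_congr rfl fun i _ => (hn i).symm
    rw [h5] at h3
    have h6 : ((a : ℝ) / 32) ^ (p + 2) ≤ Pi := by
      rw [hPi, ← hcardk k0]
      exact hlow _ (notMem_erase _ _)
    have h7 : z * a * ((a : ℝ) / 32) ^ (p + 2) ≤ n k0 * Pi :=
      mul_le_mul hcon.le h6 (by positivity) (hn0 k0)
    have h8 : z * a * ((a : ℝ) / 32) ^ (p + 2) =
        a * (z * (1 / 32) ^ (p + 2)) * (a : ℝ) ^ (p + 2) := by
      rw [div_eq_mul_one_div, mul_pow]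
      ring
    have h9 : C * 2 ^ (p + 1) * (a : ℝ) ^ (p + 2) <
        a * (z * (1 / 32) ^ (p + 2)) * (a : ℝ) ^ (p + 2) :=
      mul_lt_mul_of_pos_right hC1 (by positivity)
    linarith
  -- (B)
  have hBB : (kc G (nb G (un P) u) (p + 2) : ℝ) ≤
      Pi + (p + 2) * (z * 2 ^ (p + 1) * (a : ℝ) ^ (p + 2)) := by
    have h1 := h29_kc_le (G := G) hP u
    have h2 : (kc G (nb G (un P) u) (p + 2) : ℝ) ≤ ∑ k, ∏ l ∈ univ.erase k, n l := by
      have h3 : ((∑ k, ∏ l ∈ univ.erase k, (nb G (P l) u).card : ℕ) : ℝ) =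
          ∑ k, ∏ l ∈ univ.erase k, n l := by
        push_cast
        exact sum_congr rfl fun k _ => prod_congr rfl fun l _ => (hn l).symm
      rw [← h3]
      exact_mod_cast h1
    rw [← add_sum_erase univ _ (mem_univ k0), ← hPi] at h2
    have h3 : ∑ k ∈ univ.erase k0, ∏ l ∈ univ.erase k, n l ≤
        (univ.erase k0).card • (z * 2 ^ (p + 1) * (a : ℝ) ^ (p + 2)) := by
      apply sum_le_card_nsmul
      intro k hk
      have hkk : k0 ≠ k := (mem_erase.1 hk).1.symm
      rw [← mul_prod_erase (univ.erase k) n (mem_erase.2 ⟨hkk, mem_univ k0⟩)]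
      have h4 := hupp ((univ.erase k).erase k0) (2 * a) hn2
      rw [hcardkl k k0 hkk] at h4
      have h5 : z * 2 ^ (p + 1) * (a : ℝ) ^ (p + 2) = (z * a) * (2 * (a : ℝ)) ^ (p + 1) := by
        rw [mul_pow, pow_succ (a : ℝ) (p + 1)]
        ring
      rw [h5]
      exact mul_le_mul hA h4 (prod_nonneg fun l _ => hn0 l) (by positivity)
    rw [hcardk k0, nsmul_eq_mul] at h3
    push_cast at h3
    linarith
  have hPi0 : 0 ≤ Pi := by rw [hPi]; exact prod_nonneg fun l _ => hn0 l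
  have hPi2 : Pi ≤ (2 * (a : ℝ)) ^ (p + 2) := by
    rw [hPi, ← hcardk k0]
    exact hupp _ _ hn2
  have hnonk : (1 - e - z) * a ≤ ((non G (P k0) u).card : ℝ) := by
    have h1 := hnP k0
    have h2 := hS.lo k0
    linarith
  -- (C)
  have hCC : Pi * ((1 - e - z) * a) - C * 2 ^ (p + 1) * (a : ℝ) ^ (p + 2) ≤
      (cc G p (un P) (p + 2) u : ℝ) := by
    have h0 : ∀ i, (if i = k0 then non G (P i) u else nb G (P i) u) ⊆ P i := by
      intro i
      split_ifs
      · intro x hx
        exact (h29_mem_non.1 hx).1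
      · exact nb_subset G _ _
    have h1 := h29_cc_ge hT (S := fun i => if i = k0 then non G (P i) u else nb G (P i) u) hP u
      (univ.erase k0) (fun i hi => by rw [if_neg (mem_erase.1 hi).1])
      (fun i hi => by
        have hik : i = k0 := by
          by_contra h
          exact hi (mem_erase.2 ⟨h, mem_univ _⟩)
        rw [if_pos hik])
    rw [hcardk k0] at h1
    have h2 := h29_brk hB (S := fun i => if i = k0 then non G (P i) u else nb G (P i) u) h0 hP2
      hS.tot
    have h3 : ∏ i, (((if i = k0 then non G (P i) u else nb G (P i) u) : Finset V).card : ℝ) =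
        ((non G (P k0) u).card : ℝ) * Pi := by
      rw [hPi, ← mul_prod_erase univ _ (mem_univ k0), if_pos rfl]
      congr 1
      apply prod_congr rfl
      intro l hl
      rw [if_neg (mem_erase.1 hl).1, hn]
    rw [h3] at h2
    have h4 : Pi * ((1 - e - z) * a) ≤ ((non G (P k0) u).card : ℝ) * Pi := by
      rw [mul_comm]
      exact mul_le_mul_of_nonneg_right hnonk hPi0
    have h5 : ((trv G (fun i => if i = k0 then non G (P i) u else nb G (P i) u)).card : ℝ) ≤
        (cc G p (un P) (p + 2) u : ℝ) := by exact_mod_cast h1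
    linarith
  -- (D)
  obtain ⟨l1, hl1, hl1'⟩ := hS.exc u hu k0
  have hl1E : l1 ∈ univ.erase k0 := mem_erase.2 ⟨hl1, mem_univ _⟩
  have hD : c * (a : ℝ) ^ (p + 3) - C * 2 ^ (p + 1) * (a : ℝ) ^ (p + 2) ≤
      (cc G p (un P) (p + 1) u : ℝ) := by
    have h0 : ∀ i, (if i = k0 ∨ i = l1 then non G (P i) u else nb G (P i) u) ⊆ P i := by
      intro i
      split_ifs
      · intro x hx
        exact (h29_mem_non.1 hx).1
      · exact nb_subset G _ _
    have h1 := h29_cc_ge hT
      (S := fun i => if i = k0 ∨ i = l1 then non G (P i) u else nb G (P i) u) hP u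
      ((univ.erase k0).erase l1) (fun i hi => by
        have h1 := mem_erase.1 hi
        have h2 := mem_erase.1 h1.2
        rw [if_neg (not_or.2 ⟨h2.1, h1.1⟩)])
      (fun i hi => by
        have hik : i = k0 ∨ i = l1 := by
          by_contra h
          rw [not_or] at h
          exact hi (mem_erase.2 ⟨h.2, mem_erase.2 ⟨h.1, mem_univ _⟩⟩)
        rw [if_pos hik])
    rw [hcardkl k0 l1 hl1] at h1
    have h2 := h29_brk hB
      (S := fun i => if i = k0 ∨ i = l1 then non G (P i) u else nb G (P i) u) h0 hP2 hS.tot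
    have h3 : ∏ i, (((if i = k0 ∨ i = l1 then non G (P i) u else nb G (P i) u) :
        Finset V).card : ℝ) = ((non G (P k0) u).card : ℝ) * (((non G (P l1) u).card : ℝ) *
          ∏ l ∈ (univ.erase k0).erase l1, n l) := by
      rw [← mul_prod_erase univ _ (mem_univ k0), ← mul_prod_erase (univ.erase k0) _ hl1E,
        if_pos (Or.inl rfl), if_pos (Or.inr rfl)]
      congr 2
      apply prod_congr rfl
      intro l hl
      have h4 := mem_erase.1 hl
      rw [if_neg (not_or.2 ⟨(mem_erase.1 h4.2).1, h4.1⟩), hn]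
    rw [h3] at h2
    have h4 : ((a : ℝ) / 32) ^ (p + 1) ≤ ∏ l ∈ (univ.erase k0).erase l1, n l := by
      rw [← hcardkl k0 l1 hl1]
      exact hlow _ (fun h => notMem_erase _ _ (mem_of_mem_erase h))
    have h5 : (a : ℝ) / 2 ≤ ((non G (P k0) u).card : ℝ) := by nlinarith
    have h6 : c * (a : ℝ) ^ (p + 3) ≤ ((non G (P k0) u).card : ℝ) *
        (((non G (P l1) u).card : ℝ) * ∏ l ∈ (univ.erase k0).erase l1, n l) := by
      have h7 : c * (a : ℝ) ^ (p + 3) = a / 2 * (e1 p / 4 * a * ((a : ℝ) / 32) ^ (p + 1)) := by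
        rw [hc, div_eq_mul_one_div (a : ℝ) 32, mul_pow (a : ℝ) (1 / 32) (p + 1)]
        rw [pow_succ (a : ℝ) (p + 2), pow_succ (a : ℝ) (p + 1)]
        ring
      rw [h7]
      refine mul_le_mul h5 ?_ (by positivity) (hnon0 k0)
      exact mul_le_mul hl1' h4 (by positivity) (hnon0 l1)
    have h7 : ((trv G (fun i => if i = k0 ∨ i = l1 then non G (P i) u else nb G (P i) u)).card :
        ℝ) ≤ (cc G p (un P) (p + 1) u : ℝ) := by exact_mod_cast h1
    linarith
  constructor
  · -- (E)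
    have hap : (0 : ℝ) < (a : ℝ) ^ (p + 2) := by positivity
    have h2p : (0 : ℝ) < 2 ^ (p + 1) := by positivity
    have e1' : (a : ℝ) ^ (p + 3) = a * (a : ℝ) ^ (p + 2) := by ring
    have e2' : (2 : ℝ) ^ (p + 2) = 2 * 2 ^ (p + 1) := by ring
    rw [e1'] at hD
    rw [mul_pow, e2'] at hPi2
    rw [e2'] at hC2 hz1
    generalize (a : ℝ) ^ (p + 2) = A at *
    generalize (2 : ℝ) ^ (p + 1) = T at *
    have i1 : ((a : ℝ) + r) * kc G (nb G (un P) u) (p + 2) ≤
        (a + r) * Pi + 2 * a * ((p + 2) * (z * T * A)) := by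
      have h1 : ((a : ℝ) + r) * kc G (nb G (un P) u) (p + 2) ≤
          (a + r) * (Pi + (p + 2) * (z * T * A)) :=
        mul_le_mul_of_nonneg_left hBB (by positivity)
      have h2 : (a + r) * ((p + 2) * (z * T * A)) ≤ 2 * a * ((p + 2) * (z * T * A)) :=
        mul_le_mul_of_nonneg_right (by linarith) (by positivity)
      linarith
    have i2 : Pi * ((1 - e - z - z) * a) - C * T * A ≤ (1 - z) * cc G p (un P) (p + 2) u := by
      have h1 : (1 - z) * (Pi * ((1 - e - z) * a) - C * T * A) ≤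
          (1 - z) * cc G p (un P) (p + 2) u :=
        mul_le_mul_of_nonneg_left hCC (by linarith)
      have h2 : 0 ≤ z * (C * T * A) := by positivity
      have h3 : 0 ≤ z * (Pi * a) * (e + z) := by positivity
      nlinarith
    have i3 : Pi * (r + (e + z + z) * a) ≤ 2 * T * A * (r + 3 * z * a) := by
      have h1 : r + (e + z + z) * a ≤ r + 3 * z * a := by nlinarith
      exact mul_le_mul hPi2 h1 (by positivity) (by positivity)
    -- the main terms
    have i4 : 2 * T * A * (3 * z * a) + 2 * a * ((p + 2) * (z * T * A)) ≤ c / 32 * (a * A) := by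
      have h1 : 2 * T * A * (3 * z * a) + 2 * a * ((p + 2) * (z * T * A)) =
          (p + 5) * (z * (2 * T)) * (a * A) := by ring
      rw [h1]
      refine mul_le_mul_of_nonneg_right ?_ (by positivity)
      have h2 : c / 32 = 2 * ((p + 3) * z * (2 * T)) := by rw [hz1]; ring
      rw [h2]
      have h3 : (0 : ℝ) ≤ z * (2 * T) := by positivity
      nlinarith
    have i5 : 8 * ((r * (2 * T) + 2 * C * T) * A) ≤ a * c * A := by
      have := mul_le_mul_of_nonneg_right hC2.le hap.le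
      linarith
    have i6 : 0 ≤ c * (a * A) := by positivity
    have i7 : 0 ≤ C * T * A := by positivity
    nlinarith
  · -- (F)
    have h1 : Pi ≤ (1 + 2 * (p + 3) * e - e1 p / 4) * (a : ℝ) ^ (p + 2) := by
      have h2 : Pi = n l1 * ∏ l ∈ (univ.erase k0).erase l1, n l := by
        rw [hPi, mul_prod_erase _ _ hl1E]
      have h3 : ∏ l ∈ (univ.erase k0).erase l1, n l ≤ ((1 + e) * a) ^ (p + 1) := by
        rw [← hcardkl k0 l1 hl1]
        exact hupp _ _ hnle
      have h4 : n l1 ≤ (1 + e - e1 p / 4) * a := by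
        have h5 := hnP l1
        have h6 := hS.hi l1
        linarith
      have h5 : ((1 : ℝ) + e) ^ (p + 1) ≤ 1 + 2 * (p + 1) * e := by
        have hpe : ((p : ℝ) + 1) * e ≤ 1 / 2 := by
          have h6 : ((p : ℝ) + 1) * e ≤ (p + 3) * z :=
            mul_le_mul (by linarith) he he0 (by linarith)
          linarith
        have h6 : 1 - ((p : ℝ) + 1) * e ≤ (1 - e) ^ (p + 1) := by
          have h7 := one_add_mul_le_pow (a := -e) (by linarith) (p + 1)
          push_cast at h7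
          have h8 : (1 : ℝ) + -e = 1 - e := by ring
          rw [h8] at h7
          linarith
        have h7 : ((1 : ℝ) + e) ^ (p + 1) * (1 - e) ^ (p + 1) ≤ 1 := by
          rw [← mul_pow]
          exact pow_le_one₀ (by nlinarith) (by nlinarith)
        have h8 : ((1 : ℝ) + e) ^ (p + 1) * (1 - ((p : ℝ) + 1) * e) ≤ 1 :=
          (mul_le_mul_of_nonneg_left h6 (by positivity)).trans h7
        have h9 : 0 < 1 - ((p : ℝ) + 1) * e := by linarith
        have hpe0 : 0 ≤ ((p : ℝ) + 1) * e := by positivity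
        by_contra hcon
        push Not at hcon
        have h10 : (1 + 2 * ((p : ℝ) + 1) * e) * (1 - ((p : ℝ) + 1) * e) <
            ((1 : ℝ) + e) ^ (p + 1) * (1 - ((p : ℝ) + 1) * e) :=
          mul_lt_mul_of_pos_right hcon h9
        nlinarith
      have hee : e ≤ e1 p / 4 := by nlinarith
      have h6 : (0 : ℝ) ≤ 1 + e - e1 p / 4 := by linarith
      rw [h2]
      calc n l1 * ∏ l ∈ (univ.erase k0).erase l1, n l
          ≤ (1 + e - e1 p / 4) * a * ((1 + e) * a) ^ (p + 1) :=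
            mul_le_mul h4 h3 (prod_nonneg fun l _ => hn0 l) (by positivity)
        _ = (1 + e - e1 p / 4) * (1 + e) ^ (p + 1) * (a : ℝ) ^ (p + 2) := by
            rw [mul_pow, pow_succ (a : ℝ) (p + 1)]
            ring
        _ ≤ (1 + 2 * (p + 3) * e - e1 p / 4) * (a : ℝ) ^ (p + 2) := by
            refine mul_le_mul_of_nonneg_right ?_ (by positivity)
            have h7 : (1 + e - e1 p / 4) * (1 + e) ^ (p + 1) ≤
                (1 + e - e1 p / 4) * (1 + 2 * (p + 1) * e) :=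
              mul_le_mul_of_nonneg_left h5 h6
            have h8 : 0 ≤ (e1 p / 4 - e) * (2 * (p + 1) * e) :=
              mul_nonneg (by linarith) (by positivity)
            nlinarith
    have h2 : (p + 2) * (z * 2 ^ (p + 1) * (a : ℝ) ^ (p + 2)) ≤
        e1 p / 1000 * (a : ℝ) ^ (p + 2) := by
      rw [← mul_assoc]
      refine mul_le_mul_of_nonneg_right ?_ (by positivity)
      have h3 : (0 : ℝ) < 2 ^ (p + 1) := by positivity
      have h4 : ((p : ℝ) + 3) * z * 2 ^ (p + 2) = 2 * ((p + 3) * (z * 2 ^ (p + 1))) := by ring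
      rw [h4] at hz1
      have h5 : 0 ≤ z * 2 ^ (p + 1) := by positivity
      nlinarith
    have h3 : 2 * ((p : ℝ) + 3) * e ≤ e1 p / 1000 := by
      have h4 : ((p : ℝ) + 3) * e ≤ (p + 3) * z := mul_le_mul_of_nonneg_left he (by linarith)
      linarith
    have h4 : (1 + 2 * (p + 3) * e - e1 p / 4) * (a : ℝ) ^ (p + 2) +
        e1 p / 1000 * (a : ℝ) ^ (p + 2) ≤ (1 - e1 p / 16) * (a : ℝ) ^ (p + 2) := by
      rw [← add_mul]
      refine mul_le_mul_of_nonneg_right ?_ (by positivity)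
      linarith
    linarith

end Pool.KQ
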